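import Mathlib.Combinatorics.SimpleGraph.Metric
import Mathlib.Combinatorics.SimpleGraph.Clique
import Mathlib.Combinatorics.SimpleGraph.Finite
import Mathlib.Data.Set.Card
import Mathlib.Data.Fintype.Powerset
import Mathlib.Order.ConditionallyCompleteLattice.Finset
import Mathlib.Data.Rat.Floor
import Mathlib.Tactic.Linarith
import Mathlib.Tactic.NormNum
import Mathlib.Tactic.IntervalCases

/-!
# Local independence frequency and Hamiltonian paths: a counterexample on 12 vertices
-/

namespace Pool.Agent.Results.MP_81a4f1_co.TwelveVertexCounterexample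

/-- `l(v)`: the independence number of the subgraph induced on the open neighbourhood of `v`. -/
noncomputable def localIndep {V : Type*} (G : SimpleGraph V) (v : V) : ℕ :=
  (G.induce (G.neighborSet v)).indepNum

/-- `λ_max(G)`: the maximum of `l(v)` over all vertices `v`. -/
noncomputable def maxLocal {V : Type*} (G : SimpleGraph V) : ℕ := ⨆ v : V, localIndep G v

/-- `f(G)`: the number of vertices `v` with `l(v) = λ_max(G)`. -/
noncomputable def freq {V : Type*} (G : SimpleGraph V) : ℕ :=
  {v : V | localIndep G v = maxLocal G}.ncard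

/-- `G` has a Hamiltonian path: a path visiting every vertex. -/
def HasHamPath {V : Type*} (G : SimpleGraph V) : Prop :=
  ∃ (u v : V) (p : G.Walk u v), p.IsPath ∧ ∀ w, w ∈ p.support

/-- adjacency of the example: `0 = s`, pendant vertices `1, 2`, `3..5` and `6..8` two
independent triples, `9..11` the rest. -/
def adjB (i j : Fin 12) : Bool :=
  let a := min i.val j.val
  let b := max i.val j.val
  if a == b then false
  else if a == 0 then (b == 1 || b == 2 || b == 3 || b == 6 || 9 ≤ b)
  else if a ≤ 2 then false
  else !((b ≤ 5) || (6 ≤ a && b ≤ 8))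

/-- The example graph. -/
def H : SimpleGraph (Fin 12) where
  Adj i j := adjB i j = true
  symm := ⟨by decide⟩
  loopless := ⟨by decide⟩

instance : DecidableRel H.Adj := fun i j => inferInstanceAs (Decidable (adjB i j = true))

lemma card_compl : Hᶜ.edgeSet.ncard = 29 := by
  have : (Hᶜ.edgeFinset.card) = 29 := by decide +kernel
  rw [← this, ← SimpleGraph.coe_edgeFinset, Set.ncard_coe_finset]

/-- clique cover bound -/
lemma localIndep_le_of_cover (v : Fin 12) (k : ℕ) (c : Fin 12 → Fin k)
    (hc : ∀ x y, H.Adj v x → H.Adj v y → x ≠ y → c x = c y → H.Adj x y) :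
    localIndep H v ≤ k := by
  obtain ⟨T, hT⟩ := (H.induce (H.neighborSet v)).exists_isNIndepSet_indepNum
  unfold localIndep
  rw [← hT.card_eq]
  have : T.card ≤ (Finset.univ : Finset (Fin k)).card := by
    apply Finset.card_le_card_of_injOn (fun x => c x.1) (by simp)
    intro x hx y hy hxy
    by_contra hne
    have h1 : (x : Fin 12) ≠ y := fun h => hne (Subtype.ext h)
    exact hT.isIndepSet hx hy hne (by simpa using hc x.1 y.1 x.2 y.2 h1 hxy)
  simpa using this

lemma le_localIndep (v : Fin 12) (S : Finset (Fin 12)) (hS : ∀ x ∈ S, H.Adj v x)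
    (hind : ∀ x ∈ S, ∀ y ∈ S, x ≠ y → ¬ H.Adj x y) : S.card ≤ localIndep H v := by
  classical
  let T : Finset (H.neighborSet v) := S.subtype (fun x => x ∈ H.neighborSet v)
  have hT : T.card = S.card := by
    rw [Finset.card_subtype]
    congr 1
    apply Finset.filter_true_of_mem
    intro x hx
    exact hS x hx
  have hindT : (H.induce (H.neighborSet v)).IsIndepSet (T : Set (H.neighborSet v)) := by
    intro x hx y hy hxy hadj
    have hx' : (x : Fin 12) ∈ S := by simpa [T] using hx
    have hy' : (y : Fin 12) ∈ S := by simpa [T] using hy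
    apply hind x hx' y hy'
    · intro h
      exact hxy (Subtype.ext h)
    · simpa using hadj
  rw [← hT]
  exact hindT.card_le_indepNum

/-- cover of all but the pendants by three cliques -/
def colC (i : Fin 12) : Fin 3 :=
  if i = 4 ∨ i = 7 then 1 else if i = 5 ∨ i = 8 then 2 else 0

/-- cover of `N(0)` by three cliques -/
def colS (i : Fin 12) : Fin 3 :=
  if i = 1 then 1 else if i = 2 then 2 else 0

lemma le_three (v : Fin 12) : localIndep H v ≤ 3 := by
  by_cases h0 : v = 0
  · subst h0
    exact localIndep_le_of_cover 0 3 colS (by decide +kernel)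
  · refine localIndep_le_of_cover v 3 colC ?_
    revert v
    decide +kernel

/-- witnesses of independent triples -/
def wit (v : Fin 12) : Finset (Fin 12) :=
  if v = 0 then {1, 2, 3} else if v = 3 ∨ v = 4 ∨ v = 5 then {6, 7, 8} else {3, 4, 5}

lemma eq_three (v : Fin 12) (h : v ≠ 1 ∧ v ≠ 2) : localIndep H v = 3 := by
  apply le_antisymm (le_three v)
  have h1 : (wit v).card = 3 := by revert v; decide +kernel
  rw [← h1]
  apply le_localIndep
  · revert v; decide +kernel
  · revert v; decide +kernel

lemma le_one (v : Fin 12) (h : v = 1 ∨ v = 2) : localIndep H v ≤ 1 := by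
  apply localIndep_le_of_cover v 1 (fun _ => 0)
  revert v
  decide +kernel

lemma maxLocal_eq : maxLocal H = 3 := by
  unfold maxLocal
  apply le_antisymm
  · exact ciSup_le le_three
  · rw [← eq_three 0 (by decide)]
    exact le_ciSup (f := fun v => localIndep H v) (Set.finite_range _).bddAbove 0

lemma freq_eq : freq H = 10 := by
  unfold freq
  rw [maxLocal_eq]
  have : {v : Fin 12 | localIndep H v = 3}
      = ((Finset.univ.filter (fun v : Fin 12 => v ≠ 1 ∧ v ≠ 2) : Finset (Fin 12)) :
          Set (Fin 12)) := by
    ext v
    simp only [Set.mem_setOf_eq, Finset.coe_filter, Finset.mem_univ, true_and]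
    constructor
    · intro h
      by_contra hc
      have : v = 1 ∨ v = 2 := by tauto
      have := le_one v this
      omega
    · exact eq_three v
  rw [this, Set.ncard_coe_finset]
  decide +kernel

lemma connected : H.Connected := by
  rw [SimpleGraph.connected_iff]
  refine ⟨?_, ⟨0⟩⟩
  have key : ∀ v : Fin 12, H.Reachable 0 v := by
    intro v
    by_cases h : v = 0
    · subst h; exact SimpleGraph.Reachable.refl 0
    by_cases h1 : H.Adj 0 v
    · exact h1.reachable
    · have h2 : ∃ w, H.Adj 0 w ∧ H.Adj w v := by revert v; decide +kernel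
      obtain ⟨w, hw1, hw2⟩ := h2
      exact hw1.reachable.trans hw2.reachable
  intro u v
  exact (key u).symm.trans (key v)

/-- A vertex of a path whose only neighbour is `0` is an end of the path. -/
lemma pendant_end {u v : Fin 12} (p : H.Walk u v) (hp : p.IsPath) (x : Fin 12)
    (hx : ∀ w, H.Adj x w → w = 0) (i : ℕ) (hi : i ≤ p.length) (hxi : p.getVert i = x) :
    i = 0 ∨ i = p.length := by
  by_contra hcon
  push Not at hcon
  have h1 : H.Adj (p.getVert (i - 1)) (p.getVert (i - 1 + 1)) :=
    p.adj_getVert_succ (by omega)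
  have h2 : H.Adj (p.getVert i) (p.getVert (i + 1)) :=
    p.adj_getVert_succ (by omega)
  rw [show i - 1 + 1 = i by omega, hxi] at h1
  rw [hxi] at h2
  have e1 := hx _ h1.symm
  have e2 := hx _ h2
  have : i - 1 = i + 1 := by
    apply hp.getVert_injOn (by simp; omega) (by simp; omega)
    rw [e1, e2]
  omega

lemma no_ham_path : ¬ HasHamPath H := by
  rintro ⟨u, v, p, hp, hall⟩
  obtain ⟨i, hi, hil⟩ := SimpleGraph.Walk.mem_support_iff_exists_getVert.mp (hall 1)
  obtain ⟨j, hj, hjl⟩ := SimpleGraph.Walk.mem_support_iff_exists_getVert.mp (hall 2)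
  obtain ⟨k, hk, hkl⟩ := SimpleGraph.Walk.mem_support_iff_exists_getVert.mp (hall 3)
  have hx1 : ∀ w, H.Adj 1 w → w = 0 := by decide +kernel
  have hx2 : ∀ w, H.Adj 2 w → w = 0 := by decide +kernel
  have ei := pendant_end p hp 1 hx1 i hil hi
  have ej := pendant_end p hp 2 hx2 j hjl hj
  have hij : i ≠ j := by
    rintro rfl
    rw [hi] at hj
    exact absurd hj (by decide)
  have hlen : 1 ≤ p.length := by omega
  -- the two ends are 1 and 2
  have hstart : ∀ w, H.Adj (p.getVert 0) w → w = 0 := by
    rcases ei with h | h
    · rw [h] at hi; rw [hi]; exact hx1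
    · have : j = 0 := by omega
      rw [this] at hj; rw [hj]; exact hx2
  have hend : ∀ w, H.Adj (p.getVert p.length) w → w = 0 := by
    rcases ei with h | h
    · have : j = p.length := by omega
      rw [this] at hj; rw [hj]; exact hx2
    · rw [h] at hi; rw [hi]; exact hx1
  have a1 : p.getVert 1 = 0 := hstart _ (p.adj_getVert_succ (i := 0) (by omega))
  have a2 : p.getVert (p.length - 1) = 0 := by
    have := p.adj_getVert_succ (i := p.length - 1) (by omega)
    rw [show p.length - 1 + 1 = p.length by omega] at this
    exact hend _ this.symm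
  have hlen2 : 1 = p.length - 1 := by
    apply hp.getVert_injOn (by simp; omega) (by simp)
    rw [a1, a2]
  -- now the path has only three vertices
  have hk3 : k = 0 ∨ k = 1 ∨ k = p.length := by omega
  rcases hk3 with h | h | h
  · rw [h] at hk
    have : p.getVert 0 = 1 ∨ p.getVert 0 = 2 := by
      rcases ei with h' | h'
      · left; rw [← hi, h']
      · right
        have : j = 0 := by omega
        rw [← hj, this]
    rcases this with h' | h' <;> rw [h'] at hk <;> exact absurd hk (by decide)
  · rw [h, a1] at hk; exact absurd hk (by decide)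
  · rw [h] at hk
    have : p.getVert p.length = 1 ∨ p.getVert p.length = 2 := by
      rcases ei with h' | h'
      · right
        have : j = p.length := by omega
        rw [← hj, this]
      · left; rw [← hi, h']
    rcases this with h' | h' <;> rw [h'] at hk <;> exact absurd hk (by decide)

/-- **MP_81a4f1, Q1 (disproved).** It is not true that every connected simple graph `G` on
`n > 1` vertices with `(1 + 2 |E(Gᶜ)|) / 6 ≤ f(G)` has a Hamiltonian path. -/
theorem result : ¬ ∀ (V : Type) [Fintype V] (G : SimpleGraph V), G.Connected →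
    1 < Fintype.card V →
    (1 / 6 : ℚ) * (1 + 2 * (Gᶜ.edgeSet.ncard : ℚ)) ≤ (freq G : ℚ) → HasHamPath G := by
  intro h
  apply no_ham_path
  apply h (Fin 12) H connected (by simp)
  rw [card_compl, freq_eq]
  norm_num

end Pool.Agent.Results.MP_81a4f1_co.TwelveVertexCounterexample
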